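import Pool.Agent.FJ.NUM
import Pool.Agent.Helper38.Archive.WeightedHypersurface
import Pool.Agent.Helper38.Shape.TrichotomyKept
import Pool.Agent.Results.MP_cb9e82_lc.LoopConditions

/-!
# Instances of the hypotheses of the hand-ins of helper38
-/

set_option autoImplicit false

namespace Pool.Agent.Helper38.Vac

open MvPolynomial Pool.Agent.Results.MP_e09b14_ag.WeightedHypersurface

/-- The Fermat hypersurfaces satisfy the hypothesis of `WeightedHypersurface`. -/
theorem fermat (n d : ℕ) (hd : 0 < d) :
    IsSmoothHypersurface (N := n + 2) (fun _ => 1) d (∑ i, X i ^ d) where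
  weight_pos _ := one_pos
  degree_pos := hd
  homogeneous := by
    apply IsWeightedHomogeneous.sum
    intro i _
    have h := (isWeightedHomogeneous_X ℂ (fun _ : Fin (n + 2) => 1) i).pow d
    simpa using h
  nonsingular := by
    intro x hx _
    obtain ⟨i, hi⟩ := Function.ne_iff.1 hx
    refine ⟨i, ?_⟩
    rw [map_sum, map_sum, Finset.sum_eq_single i]
    · rw [pderiv_pow, pderiv_X_self]
      simp only [mul_one, map_mul, map_natCast, map_pow, eval_X]
      exact mul_ne_zero (by exact_mod_cast hd.ne') (pow_ne_zero _ hi)
    · intro j _ hj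
      rw [pderiv_pow, pderiv_X_of_ne hj]
      simp
    · intro h
      exact absurd (Finset.mem_univ i) h
  free := by
    intro x hx _ t ht
    obtain ⟨i, hi⟩ := Function.ne_iff.1 hx
    have h := congrFun ht i
    simp only [scale, pow_one] at h
    have h1 : (t - 1) * x i = 0 := by linear_combination h
    rcases mul_eq_zero.1 h1 with h2 | h2
    · exact sub_eq_zero.1 h2
    · exact absurd h2 hi

end Pool.Agent.Helper38.Vac

namespace Pool.Agent.Helper38.Vac

open Pool.Agent.Helper38.Scroll

/-- The line bundle `O(1)` (pulled back to any curve) satisfies the hypotheses of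
`ProjectiveBundles` (part for quotient bundles). -/
theorem lineBundle {k K : Type} [Field k] [IsAlgClosed k] [CharZero k] [Field K]
    [Algebra (RatFunc k) K] [Algebra k K] [IsScalarTower k (RatFunc k) K]
    [FiniteDimensional (RatFunc k) K] :
    ∃ g : Option k → Matrix (Fin 1) (Fin 1) K, Curve.IsBundle g ∧ Curve.HasPositiveQuotients g := by
  classical
  obtain ⟨X, hX⟩ : ∃ X : K, X = algebraMap (RatFunc k) K RatFunc.X := ⟨_, rfl⟩
  have hX0 : X ≠ 0 := by
    rw [hX, ne_eq, map_eq_zero]
    exact RatFunc.X_ne_zero
  obtain ⟨g, hg⟩ : ∃ g : Option k → Matrix (Fin 1) (Fin 1) K,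
      g = fun a => if a = none then Matrix.of fun _ _ => X else 1 := ⟨_, rfl⟩
  have hB : Curve.IsBundle g := by
    constructor
    · intro a
      rw [hg]
      by_cases ha : a = none
      · simp only [ha, if_true]
        rw [Matrix.det_unique]
        exact hX0
      · simp [ha]
    · apply (Set.finite_singleton (none : Option k)).subset
      intro a ha
      by_contra hne
      apply ha
      rw [Set.mem_singleton_iff] at hne
      rw [hg]
      simp only
      rw [if_neg hne]
  refine ⟨g, hB, ?_⟩
  have hdeg : 0 < degree g := by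
    rw [degree, finsum_eq_single _ none]
    · rw [hg]
      simp only [if_true]
      rw [Matrix.det_unique]
      show 0 < - ordAt none (Algebra.norm (RatFunc k) X)
      rw [hX, Algebra.norm_algebraMap]
      have h1 : ∀ m : ℕ, ordAt (none : Option k) ((RatFunc.X : RatFunc k) ^ m) = - m := by
        intro m
        induction m with
        | zero => simp
        | succ m ih =>
            rw [pow_succ, ordAt_mul _ (pow_ne_zero _ RatFunc.X_ne_zero) RatFunc.X_ne_zero, ih]
            simp only [ordAt, RatFunc.intDegree_X]
            push_cast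
            ring
      rw [h1]
      have := Module.finrank_pos (R := RatFunc k) (M := K)
      omega
    · intro a ha
      rw [hg]
      simp only
      rw [if_neg ha, Matrix.det_one, ordOver_one]
  have hpos := (hasPositiveQuotients_line (light_isBundle hB)).2 hdeg
  intro r hr A hA h hh
  apply hpos r hr A hA h
  intro a
  have h1 := hh a
  rw [light_lattice, light_lattice] at h1
  refine ⟨h1.1, ?_⟩
  apply SetLike.coe_injective
  rw [h1.2]
  rfl

end Pool.Agent.Helper38.Vac

namespace Pool.Agent.Helper38.Vac

open Pool.Agent.Helper38.LinL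

/-- The grammar `S → a S b | ε`. -/
def anbn : LinearGrammar Bool where
  N := Unit
  finN := inferInstance
  start := ()
  rules := {((), [true], (), [false])}
  term := {((), [])}

theorem anbn_derives {A B : anbn.N} {u v : List Bool} (h : anbn.Derives A u B v) :
    u = List.replicate u.length true ∧ v = List.replicate v.length false := by
  induction h with
  | refl => simp
  | @step u B v u' C v' _ h1 ih =>
      have h2 : (B, u', C, v') = ((), [true], (), [false]) := Finset.mem_singleton.1 h1
      have hu : u' = [true] := congrArg (fun t => t.2.1) h2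
      have hv : v' = [false] := congrArg (fun t => t.2.2.2) h2
      subst hu hv
      constructor
      · rw [List.length_append, List.replicate_add, ← ih.1]
        rfl
      · rw [List.length_append, List.replicate_add, ← ih.2]
        rfl

theorem anbn_rightDet : ∀ A, anbn.RightDet A ∨ anbn.LeftDet A ∨ anbn.Narrow A ∨ anbn.CoNarrow A := by
  intro A
  left
  intro u v v' h h' hl
  rw [(anbn_derives h).2, (anbn_derives h').2, hl]

end Pool.Agent.Helper38.Vac

namespace Pool.Agent.Helper38.Vac

open Pool.Agent.Helper38.Shape

theorem shape1 : Degenerate {((1 : ℕ), (1 : ℕ))} :=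
  Or.inl fun p hp q hq => by
    rw [Set.mem_singleton_iff] at hp hq
    subst hp hq
    rfl

theorem shape2 : ¬ Degenerate ({(1, 1), (1, 2)} : Set (ℕ × ℕ)) ∧
    PlanarSet ({(1, 1), (1, 2)} : Set (ℕ × ℕ)) := by
  constructor
  · rintro (h | h)
    · have := h (1, 1) (by simp) (1, 2) (by simp)
      simp at this
    · have := h (1, 1) (by simp)
      simp at this
  · refine ⟨(1, 1), (1, 2), fun p hp => ?_⟩
    rcases hp with hp | hp
    · exact Or.inl hp
    · exact Or.inr (Or.inl hp)

theorem shape3 : ¬ Degenerate ({(1, 1), (1, 2), (1, 3)} : Set (ℕ × ℕ)) ∧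
    ¬ PlanarSet ({(1, 1), (1, 2), (1, 3)} : Set (ℕ × ℕ)) := by
  constructor
  · rintro (h | h)
    · have := h (1, 1) (by simp) (1, 2) (by simp)
      simp at this
    · have := h (1, 1) (by simp)
      simp at this
  · rintro ⟨⟨s1, s2⟩, ⟨t1, t2⟩, h⟩
    have h1 := h (1, 1) (by simp)
    have h2 := h (1, 2) (by simp)
    have h3 := h (1, 3) (by simp)
    simp only [Prod.mk_add_mk, Prod.mk.injEq] at h1 h2 h3
    omega

end Pool.Agent.Helper38.Vac
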